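import Mathlib
import Pool.Agent.Helper533.Eul.Bd

/-!
# MP_76b2fe_co: Eulerian digraphs with at least `0.3445 n²` arcs have a directed cycle of length ≤ 3
-/

set_option autoImplicit false
open Finset

namespace Pool.Agent.Results.MP_76b2fe_co.BoundPoint3445

open Pool.Agent.Helper533.Eul

/-- code of the relation between two vertices -/
def rl {n : ℕ} (E : Finset (Fin n × Fin n)) (x y : Fin n) : ℕ :=
  if (x, y) ∈ E then 1 else if (y, x) ∈ E then 2 else 0

theorem na_table : ∀ x < 3, ∀ y < 3, ∀ z < 3, na (cd x y z) =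
    (if x = 0 then 0 else 1) + (if y = 0 then 0 else 1) + (if z = 0 then 0 else 1) := by
  decide +kernel

theorem tr_aux : ∀ x < 3, ∀ y < 3, ∀ z < 3, tr (cd x y z) =
    if (x = 1 ∧ z = 1 ∧ y = 2) ∨ (x = 2 ∧ z = 2 ∧ y = 1) then 1 else 0 := by
  decide +kernel

theorem tr_table {x y z : ℕ} (hx : x < 3) (hy : y < 3) (hz : z < 3) : tr (cd x y z) = 0 ∨
    (x = 1 ∧ z = 1 ∧ y = 2) ∨ (x = 2 ∧ z = 2 ∧ y = 1) := by
  rw [tr_aux x hx y hy z hz]
  by_cases h : (x = 1 ∧ z = 1 ∧ y = 2) ∨ (x = 2 ∧ z = 2 ∧ y = 1)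
  · exact Or.inr h
  · exact Or.inl (if_neg h)

theorem rl1 {n : ℕ} {E : Finset (Fin n × Fin n)} {x y : Fin n} (h : rl E x y = 1) : (x, y) ∈ E := by
  unfold rl at h
  split_ifs at h with h1 h2
  · exact h1
  · omega

theorem rl2 {n : ℕ} {E : Finset (Fin n × Fin n)} {x y : Fin n} (h : rl E x y = 2) : (y, x) ∈ E := by
  unfold rl at h
  split_ifs at h with h1 h2
  · omega
  · exact h2

/-- **Result.** Every loopless digraph on `n ≥ 1` vertices with in-degree equal to out-degree at
every vertex and at least `0.3445 n²` arcs contains a directed cycle of length `2` or `3`. -/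
theorem result :
    ∀ (n : ℕ) (E : Finset (Fin n × Fin n)),
      0 < n →
      (∀ v : Fin n, (v, v) ∉ E) →
      (∀ v : Fin n, (E.filter (fun e => e.1 = v)).card = (E.filter (fun e => e.2 = v)).card) →
      3445 * n ^ 2 ≤ 10000 * E.card →
      (∃ u v : Fin n, u ≠ v ∧ (u, v) ∈ E ∧ (v, u) ∈ E) ∨
      (∃ u v w : Fin n, u ≠ v ∧ v ≠ w ∧ u ≠ w ∧ (u, v) ∈ E ∧ (v, w) ∈ E ∧ (w, u) ∈ E) := by
  intro n E hn hloop hbal hE
  by_contra hcon
  push Not at hcon
  obtain ⟨hd, ht⟩ := hcon
  have hne : ∀ {u v : Fin n}, (u, v) ∈ E → u ≠ v := by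
    rintro u v h rfl
    exact hloop u h
  have hd' : ∀ {u v : Fin n}, (u, v) ∈ E → (v, u) ∉ E := fun h => hd _ _ (hne h) h
  have hPr : ∀ x y : Fin n, Pr (rl E x y) (rl E y x) := by
    intro x y
    unfold rl Pr
    by_cases a : (x, y) ∈ E
    · have b := hd' a
      simp [a, b]
    · by_cases b : (y, x) ∈ E <;> simp [a, b]
  have hl : ∀ x y : Fin n, rl E x y < 3 := fun x y => Pr_lt (hPr x y)
  have hz : NoC3 (rl E) := by
    intro a b c
    rcases tr_table (hl a b) (hl a c) (hl b c) with h | ⟨h1, h2, h3⟩ | ⟨h1, h2, h3⟩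
    · exact h
    · have e1 := rl1 h1
      have e2 := rl1 h2
      have e3 := rl2 h3
      exact absurd e3 (ht a b c (hne e1) (hne e2) (hne e3).symm e1 e2)
    · have e1 := rl2 h1
      have e2 := rl2 h2
      have e3 := rl1 h3
      exact absurd e1 (ht a c b (hne e3) (hne e2) (hne e1).symm e3 e2)
  have o1 : ∀ a : Fin n, ∑ e : Fin n, (if rl E a e = 1 then 1 else 0) =
      (E.filter (fun e => e.1 = a)).card := by
    intro a
    rw [← Finset.card_filter]
    refine Finset.card_bij (fun b _ => (a, b)) ?_ ?_ ?_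
    · intro b hb
      rw [mem_filter] at hb ⊢
      exact ⟨rl1 hb.2, rfl⟩
    · intro b1 _ b2 _ h
      exact (Prod.mk.inj h).2
    · rintro ⟨x, y⟩ he
      rw [mem_filter] at he
      obtain ⟨he, rfl⟩ := he
      refine ⟨y, ?_, rfl⟩
      rw [mem_filter]
      refine ⟨mem_univ _, ?_⟩
      unfold rl
      exact if_pos he
  have o2 : ∀ a : Fin n, ∑ e : Fin n, (if rl E a e = 2 then 1 else 0) =
      (E.filter (fun e => e.2 = a)).card := by
    intro a
    rw [← Finset.card_filter]
    refine Finset.card_bij (fun b _ => (b, a)) ?_ ?_ ?_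
    · intro b hb
      rw [mem_filter] at hb ⊢
      exact ⟨rl2 hb.2, rfl⟩
    · intro b1 _ b2 _ h
      exact (Prod.mk.inj h).1
    · rintro ⟨x, y⟩ he
      rw [mem_filter] at he
      obtain ⟨he, rfl⟩ := he
      refine ⟨x, ?_, rfl⟩
      rw [mem_filter]
      refine ⟨mem_univ _, ?_⟩
      unfold rl
      rw [if_neg (hd' he), if_pos he]
  have hEul : ∀ a : Fin n, ∑ e : Fin n, (if rl E a e = 1 then 1 else 0) =
      ∑ e : Fin n, (if rl E a e = 2 then 1 else 0) := fun a => by rw [o1, o2, hbal]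
  have m := main_aux (rl E) hPr hz hEul
  rw [Fintype.card_fin] at m
  have hsum : ∑ a : Fin n, ∑ e : Fin n, (if rl E a e = 1 then 1 else 0) = E.card := by
    have : ∀ a e : Fin n, (if rl E a e = 1 then 1 else 0) = (if (a, e) ∈ E then 1 else 0) := by
      intro a e
      by_cases h : (a, e) ∈ E
      · rw [if_pos h, if_pos (by unfold rl; exact if_pos h)]
      · rw [if_neg h, if_neg (fun h' => h (rl1 h'))]
    simp only [this]
    rw [← Fintype.sum_prod_type' (f := fun a e => if (a, e) ∈ E then 1 else 0)]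
    simp
  have hsum2 : ∑ a : Fin n, ∑ e : Fin n, (if rl E a e = 0 then 0 else 1) = 2 * E.card := by
    have : ∀ a e : Fin n, (if rl E a e = 0 then 0 else 1) =
        (if rl E a e = 1 then 1 else 0) + (if rl E a e = 2 then 1 else 0) := by
      intro a e
      have := hl a e
      have h3 : rl E a e = 0 ∨ rl E a e = 1 ∨ rl E a e = 2 := by omega
      rcases h3 with h | h | h <;> rw [h] <;> rfl
    simp only [this, Finset.sum_add_distrib]
    have h2 : ∑ a : Fin n, ∑ e : Fin n, (if rl E a e = 2 then 1 else 0) =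
        ∑ a : Fin n, ∑ e : Fin n, (if rl E a e = 1 then 1 else 0) :=
      sum_congr rfl fun a _ => (hEul a).symm
    rw [h2, hsum]
    ring
  have hPP : PP (rl E) = 6 * n * E.card := by
    rw [PP]
    have : ∀ a b c : Fin n, na (cd (rl E a b) (rl E a c) (rl E b c)) =
        (if rl E a b = 0 then 0 else 1) + (if rl E a c = 0 then 0 else 1)
          + (if rl E b c = 0 then 0 else 1) :=
      fun a b c => na_table _ (hl a b) _ (hl a c) _ (hl b c)
    simp only [this, Finset.sum_add_distrib, Finset.sum_const, Finset.card_univ, Fintype.card_fin,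
      smul_eq_mul, ← Finset.mul_sum]
    rw [hsum2]
    ring
  rw [hPP] at m
  have h1 : n * (3445 * n ^ 2) ≤ n * (10000 * E.card) := Nat.mul_le_mul_left _ hE
  have h2 : 0 < n ^ 3 := by positivity
  nlinarith

end Pool.Agent.Results.MP_76b2fe_co.BoundPoint3445
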