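import Pool.Agent.EulFlag.Apply
import Pool.Agent.EulFlag.Certs1
import Pool.Agent.EulFlag.Certs2
import Pool.Agent.EulFlag.Certs3
import Pool.Agent.EulFlag.Certs4

set_option autoImplicit false

namespace Pool.Agent.Results.MP_76b2fe_co.FourVertex

open Finset Pool.EulFlag

/-- No loops, and in-degree equal to out-degree at every vertex. -/
def Eulerian {n : ℕ} (E : Finset (Fin n × Fin n)) : Prop :=
  (∀ v : Fin n, (v, v) ∉ E) ∧
  ∀ v : Fin n, (E.filter (fun e => e.1 = v)).card = (E.filter (fun e => e.2 = v)).card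

/-- There is a directed cycle of length `2` or `3`. -/
def ShortCycle {n : ℕ} (E : Finset (Fin n × Fin n)) : Prop :=
  (∃ u v : Fin n, u ≠ v ∧ (u, v) ∈ E ∧ (v, u) ∈ E) ∨
  (∃ u v w : Fin n, u ≠ v ∧ v ≠ w ∧ u ≠ w ∧ (u, v) ∈ E ∧ (v, w) ∈ E ∧ (w, u) ∈ E)

/-- There is a directed cycle of length `4`. -/
def FourCycle {n : ℕ} (E : Finset (Fin n × Fin n)) : Prop :=
  ∃ u v w x : Fin n, u ≠ v ∧ u ≠ w ∧ u ≠ x ∧ v ≠ w ∧ v ≠ x ∧ w ≠ x ∧
    (u, v) ∈ E ∧ (v, w) ∈ E ∧ (w, x) ∈ E ∧ (x, u) ∈ E

/-- `E` contains the digraph with vertex set `Fin 4` and arc set `H` as an induced subgraph. -/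
def InducedCopy {n : ℕ} (H : Finset (Fin 4 × Fin 4)) (E : Finset (Fin n × Fin n)) : Prop :=
  ∃ f : Fin 4 → Fin n, Function.Injective f ∧ ∀ i j : Fin 4, (f i, f j) ∈ E ↔ (i, j) ∈ H

/-- Seven digraphs on four vertices: the transitive triangle plus an isolated vertex; two disjoint
arcs; the transitive triangle with a pendant arc leaving its sink; the transitive triangle with a
pendant arc entering its source; the transitive tournament on four vertices without the arc from
the source to the sink; the directed 4-cycle; the transitive tournament on four vertices. -/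
def seven : List (Finset (Fin 4 × Fin 4)) :=
  [{(0, 1), (0, 2), (1, 2)},
   {(0, 1), (2, 3)},
   {(0, 1), (0, 2), (1, 2), (2, 3)},
   {(0, 1), (0, 2), (1, 2), (3, 0)},
   {(0, 1), (0, 2), (1, 2), (1, 3), (2, 3)},
   {(0, 1), (1, 2), (2, 3), (3, 0)},
   {(0, 1), (0, 2), (0, 3), (1, 2), (1, 3), (2, 3)}]

section Bridge

variable {n : ℕ}

theorem sum_out (E : Finset (Fin n × Fin n)) :
    (∑ x : Fin n, ((univ.filter fun y => decide ((x, y) ∈ E) = true).card : ℤ)) = (E.card : ℤ) := by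
  have h : ∀ x : Fin n, (univ.filter fun y => decide ((x, y) ∈ E) = true).card
      = (E.filter (fun e => e.1 = x)).card := by
    intro x
    refine Finset.card_bij (fun y _ => (x, y)) ?_ ?_ ?_
    · intro y hy; simp only [mem_filter, mem_univ, decide_eq_true_eq, true_and] at hy
      simp [hy]
    · intro a _ b _ hab; exact (Prod.mk.inj hab).2
    · rintro ⟨a, b⟩ hab
      simp only [mem_filter] at hab
      obtain ⟨h1, h2⟩ := hab
      subst h2
      exact ⟨b, by simp [h1], rfl⟩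
  have h2 : E.card = ∑ x : Fin n, (E.filter (fun e => e.1 = x)).card :=
    Finset.card_eq_sum_card_fiberwise (fun e _ => by simp)
  rw [h2]
  push_cast
  exact Finset.sum_congr rfl fun x _ => by rw [h x]

theorem out_card (E : Finset (Fin n × Fin n)) (x : Fin n) :
    (univ.filter fun y => decide ((x, y) ∈ E) = true).card
      = (E.filter (fun e => e.1 = x)).card := by
  refine Finset.card_bij (fun y _ => (x, y)) ?_ ?_ ?_
  · intro y hy; simp only [mem_filter, mem_univ, decide_eq_true_eq, true_and] at hy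
    simp [hy]
  · intro a _ b _ hab; exact (Prod.mk.inj hab).2
  · rintro ⟨a, b⟩ hab
    simp only [mem_filter] at hab
    obtain ⟨h1, h2⟩ := hab
    subst h2
    exact ⟨b, by simp [h1], rfl⟩

theorem in_card (E : Finset (Fin n × Fin n)) (x : Fin n) :
    (univ.filter fun y => decide ((y, x) ∈ E) = true).card
      = (E.filter (fun e => e.2 = x)).card := by
  refine Finset.card_bij (fun y _ => (y, x)) ?_ ?_ ?_
  · intro y hy; simp only [mem_filter, mem_univ, decide_eq_true_eq, true_and] at hy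
    simp [hy]
  · intro a _ b _ hab; exact (Prod.mk.inj hab).1
  · rintro ⟨a, b⟩ hab
    simp only [mem_filter] at hab
    obtain ⟨h1, h2⟩ := hab
    subst h2
    exact ⟨a, by simp [h1], rfl⟩

theorem bound (E : Finset (Fin n × Fin n)) (hE : Eulerian E) (hS : ¬ ShortCycle E)
    (C : Cert) (hC : C.valid = true) (forb : List Six) (hchk : chk C forb)
    (hforb : ∀ H ∈ forb, good H = true ∧
      ¬ ∃ f : Fin 4 → Fin n, Function.Injective f ∧ ∀ i j, (f i, f j) ∈ E ↔ mkt H i j = 1) :
    C.cd * (E.card : ℤ) ≤ C.cn * (n : ℤ) ^ 2 := by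
  obtain ⟨hloop, hbal⟩ := hE
  unfold ShortCycle at hS
  push Not at hS
  obtain ⟨hS2, hS3⟩ := hS
  have hd : ∀ x y : Fin n, decide ((x, y) ∈ E) = true → decide ((y, x) ∈ E) = false := by
    intro x y h
    simp only [decide_eq_true_eq] at h
    simp only [decide_eq_false_iff_not]
    intro h2
    by_cases hxy : x = y
    · subst hxy; exact hloop _ h
    · exact hS2 x y hxy h h2
  have h := cert_apply C hC forb hchk (fun x y => decide ((x, y) ∈ E)) hd ?_ ?_ ?_
  · rw [sum_out] at h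
    simpa using h
  · intro x y z h1 h2 h3
    simp only [decide_eq_true_eq] at h1 h2 h3
    have a1 : x ≠ y := fun h => hloop x (by rw [← h] at h1; exact h1)
    have a2 : y ≠ z := fun h => hloop y (by rw [← h] at h2; exact h2)
    have a3 : x ≠ z := fun h => hloop x (by rw [← h] at h3; exact h3)
    exact hS3 x y z a1 a2 a3 h1 h2 h3
  · intro x
    rw [out_card, in_card, hbal x]
  · intro H hH
    obtain ⟨hg, hno⟩ := hforb H hH
    refine ⟨hg, ?_⟩
    rintro ⟨f, hf, hfe⟩
    apply hno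
    refine ⟨f, hf, fun i j => ?_⟩
    rw [← hfe i j, stt_one]
    simp

end Bridge

/-- All seven patterns, with their arc sets. -/
theorem arcs_eq :
    (∀ i j, (i, j) ∈ ({(0, 1), (0, 2), (1, 2)} : Finset (Fin 4 × Fin 4)) ↔ mkt hTK i j = 1) ∧
    (∀ i j, (i, j) ∈ ({(0, 1), (2, 3)} : Finset (Fin 4 × Fin 4)) ↔ mkt hTwo i j = 1) ∧
    (∀ i j, (i, j) ∈ ({(0, 1), (0, 2), (1, 2), (2, 3)} : Finset (Fin 4 × Fin 4)) ↔
      mkt hSink i j = 1) ∧
    (∀ i j, (i, j) ∈ ({(0, 1), (0, 2), (1, 2), (3, 0)} : Finset (Fin 4 × Fin 4)) ↔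
      mkt hSource i j = 1) ∧
    (∀ i j, (i, j) ∈ ({(0, 1), (0, 2), (1, 2), (1, 3), (2, 3)} : Finset (Fin 4 × Fin 4)) ↔
      mkt hT4m i j = 1) ∧
    (∀ i j, (i, j) ∈ ({(0, 1), (1, 2), (2, 3), (3, 0)} : Finset (Fin 4 × Fin 4)) ↔
      mkt hC4 i j = 1) ∧
    (∀ i j, (i, j) ∈ ({(0, 1), (0, 2), (0, 3), (1, 2), (1, 3), (2, 3)} :
      Finset (Fin 4 × Fin 4)) ↔ mkt hT4 i j = 1) := by
  decide +kernel

theorem good_all : good hTK = true ∧ good hTwo = true ∧ good hSink = true ∧ good hSource = true ∧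
    good hT4m = true ∧ good hC4 = true ∧ good hT4 = true := by
  decide +kernel

theorem seven_bound {n : ℕ} (E : Finset (Fin n × Fin n)) (hE : Eulerian E) (hS : ¬ ShortCycle E)
    (C : Cert) (hC : C.valid = true) (h1 : C.cn = 333) (h2 : C.cd = 1000)
    (H : Six) (hchk : chk C [H]) (hg : good H = true)
    (A : Finset (Fin 4 × Fin 4)) (hA : ∀ i j, (i, j) ∈ A ↔ mkt H i j = 1) (hno : ¬ InducedCopy A E) :
    1000 * (E.card : ℤ) ≤ 333 * (n : ℤ) ^ 2 := by
  have := bound E hE hS C hC [H] hchk ?_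
  · rw [h1, h2] at this; exact this
  · intro H' hH'
    simp only [List.mem_singleton] at hH'
    subst hH'
    refine ⟨hg, ?_⟩
    rintro ⟨f, hf, hfe⟩
    exact hno ⟨f, hf, fun i j => (hfe i j).trans (hA i j).symm⟩

/-- **Main result.** -/
theorem result :
    -- (1) Q1 holds for all Eulerian digraphs with no induced copy of (at least) one of the seven
    -- digraphs in the list `seven`
    (∀ (n : ℕ) (E : Finset (Fin n × Fin n)), 0 < n → Eulerian E → n ^ 2 ≤ 3 * E.card →
      (∃ H ∈ seven, ¬ InducedCopy H E) → ShortCycle E) ∧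
    -- (2) Q1 holds with `0.359 n ^ 2` in place of `n ^ 2 / 3`
    (∀ (n : ℕ) (E : Finset (Fin n × Fin n)), 0 < n → Eulerian E → 359 * n ^ 2 ≤ 1000 * E.card →
      ShortCycle E) ∧
    -- (3) `(2 / 7) n ^ 2` arcs force a directed cycle of length at most `4`
    (∀ (n : ℕ) (E : Finset (Fin n × Fin n)), 0 < n → Eulerian E → 2 * n ^ 2 ≤ 7 * E.card →
      ShortCycle E ∨ FourCycle E) := by
  obtain ⟨a1, a2, a3, a4, a5, a6, a7⟩ := arcs_eq
  obtain ⟨g1, g2, g3, g4, g5, g6, g7⟩ := good_all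
  refine ⟨?_, ?_, ?_⟩
  · intro n E hn hE hm hH
    by_contra hS
    obtain ⟨H, hmem, hno⟩ := hH
    have hb : 1000 * (E.card : ℤ) ≤ 333 * (n : ℤ) ^ 2 := by
      simp only [seven, List.mem_cons, List.not_mem_nil, or_false] at hmem
      rcases hmem with h | h | h | h | h | h | h <;> subst h
      · exact seven_bound E hE hS cTK cTK_valid rfl rfl hTK cTK_chk g1 _ a1 hno
      · exact seven_bound E hE hS cTwo cTwo_valid rfl rfl hTwo cTwo_chk g2 _ a2 hno
      · exact seven_bound E hE hS cSink cSink_valid rfl rfl hSink cSink_chk g3 _ a3 hno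
      · exact seven_bound E hE hS cSource cSource_valid rfl rfl hSource cSource_chk g4 _ a4 hno
      · exact seven_bound E hE hS cT4m cT4m_valid rfl rfl hT4m cT4m_chk g5 _ a5 hno
      · exact seven_bound E hE hS cC4 cC4_valid rfl rfl hC4 cC4_chk g6 _ a6 hno
      · exact seven_bound E hE hS cT4 cT4_valid rfl rfl hT4 cT4_chk g7 _ a7 hno
    have hm' : (n : ℤ) ^ 2 ≤ 3 * (E.card : ℤ) := by exact_mod_cast hm
    have hn' : 0 < (n : ℤ) ^ 2 := by positivity
    linarith
  · intro n E hn hE hm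
    by_contra hS
    have hb := bound E hE hS cGen cGen_valid [] cGen_chk (by simp)
    have h1 : cGen.cd = 10000 := rfl
    have h2 : cGen.cn = 3589 := rfl
    rw [h1, h2] at hb
    have hm' : 359 * (n : ℤ) ^ 2 ≤ 1000 * (E.card : ℤ) := by exact_mod_cast hm
    have hn' : 0 < (n : ℤ) ^ 2 := by positivity
    linarith
  · intro n E hn hE hm
    by_contra hS
    push Not at hS
    obtain ⟨hS, hF⟩ := hS
    have hb := bound E hE hS cFour cFour_valid [hC4] cFour_chk ?_
    · have h1 : cFour.cd = 2000 := rfl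
      have h2 : cFour.cn = 571 := rfl
      rw [h1, h2] at hb
      have hm' : 2 * (n : ℤ) ^ 2 ≤ 7 * (E.card : ℤ) := by exact_mod_cast hm
      have hn' : 0 < (n : ℤ) ^ 2 := by positivity
      linarith
    · intro H' hH'
      simp only [List.mem_singleton] at hH'
      subst hH'
      refine ⟨g6, ?_⟩
      rintro ⟨f, hf, hfe⟩
      apply hF
      have ne : ∀ i j : Fin 4, i ≠ j → f i ≠ f j := fun i j h h' => h (hf h')
      refine ⟨f 0, f 1, f 2, f 3, ne _ _ (by decide), ne _ _ (by decide), ne _ _ (by decide),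
        ne _ _ (by decide), ne _ _ (by decide), ne _ _ (by decide), ?_, ?_, ?_, ?_⟩
      · exact (hfe 0 1).2 rfl
      · exact (hfe 1 2).2 rfl
      · exact (hfe 2 3).2 rfl
      · exact (hfe 3 0).2 rfl

end Pool.Agent.Results.MP_76b2fe_co.FourVertex
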