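import Mathlib
import Pool.Agent.Helper495.SNSum

/-!
# MP_76b2fe_co: Eulerian digraphs with at least `2n²/5` arcs have a directed cycle of length ≤ 3
-/

open Finset

namespace Pool.Agent.Results.MP_76b2fe_co.TwoFifths

open Pool.Agent.Helper495.SN

lemma aux {V : Type} [Fintype V] (E : V → V → Prop) (h : EulerianOriented E)
    (ht : ∀ u v w, E u v → E v w → ¬ E w u) (v : V) :
    (N2 E v).card + 2 * (Out E v).card + 1 ≤ Fintype.card V := by
  classical
  have h1 : (N2 E v).card + (Out E v).card + (In E v).card + ({v} : Finset V).card ≤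
      (univ : Finset V).card := by
    rw [← card_union_of_disjoint, ← card_union_of_disjoint, ← card_union_of_disjoint]
    · exact card_le_card (subset_univ _)
    · rw [Finset.disjoint_singleton_right]
      simp only [mem_union, mem_Out, mem_In, not_or]
      refine ⟨⟨?_, h.noLoop v⟩, h.noLoop v⟩
      unfold N2; simp
    · rw [Finset.disjoint_left]
      intro w hw hw'
      rw [mem_In] at hw'
      simp only [mem_union, mem_Out] at hw
      rcases hw with hw | hw
      · unfold N2 at hw
        simp only [mem_filter, mem_univ, true_and] at hw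
        obtain ⟨_, _, u, hu1, hu2⟩ := hw
        exact ht v u w hu1 hu2 hw'
      · exact h.noDigon _ _ hw hw'
    · rw [Finset.disjoint_left]
      intro w hw hw'
      rw [mem_Out] at hw'
      unfold N2 at hw
      simp only [mem_filter, mem_univ, true_and] at hw
      exact hw.2.1 hw'
  rw [← h.balanced v, card_singleton, card_univ] at h1
  omega

/-- **Result.** Every loopless digraph on `n ≥ 1` vertices with in-degree equal to out-degree at
every vertex and at least `2n²/5` arcs contains a directed cycle of length `2` or `3`. -/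
theorem result :
    ∀ (n : ℕ) (E : Finset (Fin n × Fin n)),
      0 < n →
      (∀ v : Fin n, (v, v) ∉ E) →
      (∀ v : Fin n, (E.filter (fun e => e.1 = v)).card = (E.filter (fun e => e.2 = v)).card) →
      2 * n ^ 2 ≤ 5 * E.card →
      (∃ u v : Fin n, u ≠ v ∧ (u, v) ∈ E ∧ (v, u) ∈ E) ∨
      (∃ u v w : Fin n, u ≠ v ∧ v ≠ w ∧ u ≠ w ∧ (u, v) ∈ E ∧ (v, w) ∈ E ∧ (w, u) ∈ E) := by
  classical
  intro n E hn hloop hbal hE
  by_contra hcon
  push Not at hcon
  obtain ⟨hd, ht⟩ := hcon
  set R : Fin n → Fin n → Prop := fun u v => (u, v) ∈ E with hR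
  have o1 : ∀ v, (Out R v).card = (E.filter (fun e => e.1 = v)).card := by
    intro v
    apply Finset.card_bij (fun w _ => (v, w))
    · intro w hw; rw [mem_Out] at hw; simp [hR] at hw ⊢; exact hw
    · intro a _ b _ hab; simpa using hab
    · intro p hp; simp only [mem_filter] at hp
      refine ⟨p.2, ?_, ?_⟩
      · rw [mem_Out]; rw [← hp.2]; exact hp.1
      · rw [← hp.2]
  have o2 : ∀ v, (In R v).card = (E.filter (fun e => e.2 = v)).card := by
    intro v
    apply Finset.card_bij (fun w _ => (w, v))
    · intro w hw; rw [mem_In] at hw; simp [hR] at hw ⊢; exact hw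
    · intro a _ b _ hab; simpa using hab
    · intro p hp; simp only [mem_filter] at hp
      refine ⟨p.1, ?_, ?_⟩
      · rw [mem_In]; rw [← hp.2]; exact hp.1
      · rw [← hp.2]
  have hO : EulerianOriented R := by
    refine ⟨hloop, ?_, ?_⟩
    · intro u v huv hvu
      have hne : u ≠ v := by rintro rfl; exact hloop u huv
      exact hd u v hne huv hvu
    · intro v; rw [o1, o2]; exact hbal v
  have hT : ∀ u v w, R u v → R v w → ¬ R w u := by
    intro u v w huv hvw hwu
    have h1 : u ≠ v := by rintro rfl; exact hloop u huv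
    have h2 : v ≠ w := by rintro rfl; exact hloop v hvw
    have h3 : u ≠ w := by rintro rfl; exact hloop u hwu
    exact ht u v w h1 h2 h3 huv hvw hwu
  have hs : ∑ v, (Out R v).card = E.card := by
    rw [Finset.sum_congr rfl (fun v _ => o1 v)]
    exact (Finset.card_eq_sum_card_fiberwise (f := fun e : Fin n × Fin n => e.1)
      (t := univ) (fun _ _ => by simp)).symm
  have h1 := half R hO
  have h2 : ∑ v : Fin n, ((N2 R v).card + 2 * (Out R v).card + 1) ≤ ∑ v : Fin n, n := by
    apply Finset.sum_le_sum
    intro v _
    have := aux R hO hT v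
    simpa using this
  rw [Finset.sum_add_distrib, Finset.sum_add_distrib, ← Finset.mul_sum] at h2
  simp only [Finset.sum_const, card_univ, Fintype.card_fin, smul_eq_mul, mul_one] at h2
  rw [hs] at h1 h2
  nlinarith

end Pool.Agent.Results.MP_76b2fe_co.TwoFifths
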